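import Mathlib
import Pool.Agent.Helper41.WNCDefs
import Pool.Agent.Helper41.WNCFinal

/-!
# Q2: equality of the measures of weak non-compactness on `K(H)`

The definitions (`omega`, `wk`, `wck`, `KH`, ...) are in `Pool.Agent.Helper41.WNCDefs`.
-/

open scoped NNReal ENNReal
open Pool.Agent.Helper41.WNC

namespace Pool.Agent.Results.MP_af3abc_an.EqualIffSeparable

/-- For every (real or complex) Hilbert space `H`: the three measures `omega`, `wk`, `wck` are equal
on all bounded subsets of `K(H)` if and only if `H` is separable. -/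
theorem result (𝕜 : Type*) [RCLike 𝕜] (H : Type*) [NormedAddCommGroup H] [InnerProductSpace 𝕜 H]
    [CompleteSpace H] :
    (∀ A : Set (KH 𝕜 H), Bornology.IsBounded A → omega 𝕜 A = wk 𝕜 A ∧ wk 𝕜 A = wck 𝕜 A) ↔
      TopologicalSpace.SeparableSpace H := by
  constructor
  · intro h
    by_contra hns
    obtain ⟨A, hA, hlt⟩ := exists_bad_set (𝕜 := 𝕜) hns 1
    rw [(h A hA).1] at hlt
    simp at hlt
  · intro hs A hA
    exact all_eq_of_separable hA

end Pool.Agent.Results.MP_af3abc_an.EqualIffSeparable
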