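import Mathlib
import Pool.Agent.Helper41.WNCDefs
import Pool.Agent.Helper41.WNCFinal

/-!
# Q1: equivalence of the measures of weak non-compactness on `K(H)`

The definitions (`omega`, `wk`, `wck`, `MeasEquiv`, `KH`, ...) are in
`Pool.Agent.Helper41.WNCDefs`.
-/

open scoped NNReal ENNReal
open Pool.Agent.Helper41.WNC

namespace Pool.Agent.Results.MP_af3abc_an.EquivIffSeparable

/-- For every (real or complex) Hilbert space `H`: if `H` is separable then the De Blasi measure
`omega`, `wk` and `wck` are pairwise equivalent on `K(H)`; if `H` is not separable then for every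
constant `C` there is a bounded set `A` in `K(H)` with `omega A > C * wk A`. -/
theorem result (𝕜 : Type*) [RCLike 𝕜] (H : Type*) [NormedAddCommGroup H] [InnerProductSpace 𝕜 H]
    [CompleteSpace H] :
    (TopologicalSpace.SeparableSpace H →
      MeasEquiv (X := KH 𝕜 H) (omega 𝕜) (wk 𝕜) ∧
      MeasEquiv (X := KH 𝕜 H) (wk 𝕜) (wck 𝕜) ∧
      MeasEquiv (X := KH 𝕜 H) (omega 𝕜) (wck 𝕜)) ∧
    (¬ TopologicalSpace.SeparableSpace H →
      ∀ C : ℝ≥0, ∃ A : Set (KH 𝕜 H), Bornology.IsBounded A ∧ C * wk 𝕜 A < omega 𝕜 A) := by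
  refine ⟨fun hs => ?_, fun hns C => exists_bad_set hns C⟩
  refine ⟨⟨1, 1, one_pos, one_pos, fun A hA => ?_⟩, ⟨1, 1, one_pos, one_pos, fun A hA => ?_⟩,
    ⟨1, 1, one_pos, one_pos, fun A hA => ?_⟩⟩
  all_goals
    obtain ⟨h1, h2⟩ := all_eq_of_separable (𝕜 := 𝕜) hA
    simp [h1, h2]

end Pool.Agent.Results.MP_af3abc_an.EquivIffSeparable
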